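import Pool.Agent.H82.EUC.Stmts4

/-!
# Row PDX of the board `euc`
-/

set_option autoImplicit false

namespace Pool.EUC

theorem pdx_thm (hOPP : OPP_S) (hPDM : PDM_S) : PDX_S := by
  intro A P _ dM dW hM hW g hg x y hxy hyx m w hcr
  obtain ⟨hm, hw, h1, h2⟩ := hcr
  have hmeet : (LowerSet.Iic x ⊔ LowerSet.Iio y) ⊓ LowerSet.Iic y = LowerSet.Iio y := by
    ext z
    simp only [LowerSet.coe_inf, LowerSet.coe_sup, LowerSet.coe_Iic, LowerSet.coe_Iio,
      Set.mem_inter_iff, Set.mem_union, Set.mem_Iic, Set.mem_Iio]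
    constructor
    · rintro ⟨hz | hz, hzy⟩
      · refine lt_of_le_of_ne hzy ?_
        rintro rfl
        exact hyx hz
      · exact hz
    · intro hz
      exact ⟨Or.inr hz, hz.le⟩
  have hme := hg.meet (LowerSet.Iic x ⊔ LowerSet.Iio y) (LowerSet.Iic y)
  rw [hmeet] at hme
  have hXw : (g (LowerSet.Iic x ⊔ LowerSet.Iio y)).symm w = (g (LowerSet.Iio y)).symm w := by
    have h3 := hme.1 w
    rcases max_choice (dW w ((g (LowerSet.Iic x ⊔ LowerSet.Iio y)).symm w))
      (dW w ((g (LowerSet.Iic y)).symm w)) with h | h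
    · rw [h] at h3
      exact (hW w h3).symm
    · rw [h] at h3
      exact absurd (hW w h3) hw
  have hle : dM m (g (LowerSet.Iic x) m) ≤ dM m (g (LowerSet.Iic x ⊔ LowerSet.Iio y) m) :=
    hOPP A dM dW hM hW _ _ (hg.stb _) (hg.stb _) (hg.mono _ _ le_sup_left) m
  by_cases hXm : g (LowerSet.Iic x ⊔ LowerSet.Iio y) m = w
  · have h4 : (g (LowerSet.Iio y)).symm w = m := by
      rw [← hXw, ← hXm, Equiv.symm_apply_apply]
    have h5 : g (LowerSet.Iio y) m = w := by
      rw [← h4, Equiv.apply_symm_apply]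
    refine hPDM A P dM dW hM hW g hg x y hxy hyx m hm ?_
    intro h6
    apply hw
    rw [h4, eq_comm, Equiv.symm_apply_eq, ← h6, h5]
  · refine hg.stb (LowerSet.Iic x ⊔ LowerSet.Iio y) m w ⟨?_, ?_⟩
    · refine lt_of_le_of_ne (h1.trans hle) ?_
      intro h
      exact hXm (hM m h).symm
    · rw [hXw]
      refine lt_of_le_of_ne h2 ?_
      intro h
      have h7 := hW w h
      apply hXm
      rw [h7, ← hXw, Equiv.apply_symm_apply]

end Pool.EUC
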